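import Pool.Agent.helper99.PLR.Spec
import Pool.Agent.helper77.HQ.DSC

/-!
# Project plr (MP_d9e35a_co), row DSK: descent to a link
-/

set_option autoImplicit false
set_option linter.unusedVariables false

open scoped Classical

namespace Pool.Agent.PLR

open Finset
open Pool.Agent.helper65.HC (V IsEig IsTop lam)
open Pool.Agent.helper9.HQ (Fam Dn E N Le Eig lk)
open Pool.Agent.helper9.HX (Ef)
open Pool.Agent.helper9.HLR (cel Lc)

noncomputable section

theorem DSK_main (hEV : Pool.Agent.helper9.HQ.EV_stmt) (d : ℕ) (kap rho R : ℝ) (hk0 : 0 < kap)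
    (hr0 : 0 < rho) (hr1 : rho < 1) (hR0 : 1 ≤ R) (hR : R * (1 - rho) = 1) (hk1 : 2 * (R * kap) ≤ 1) :
    ∀ (n : ℕ) (U : Fam d), U.card ≤ n → ∀ (j : ℕ) (l : ℝ) (f : Finset (Fin d) → ℝ), Dn U →
      Eig U l f → 0 < l →
      ∃ (A : Fam d) (l' : ℝ) (f' : Finset (Fin d) → ℝ) (J : ℕ), j ≤ J ∧ A ⊆ U ∧ Dn A ∧ Eig A l' f' ∧
        (1 - R * kap * (rho ^ j - rho ^ J)) * l ≤ l' ∧
        A.card * 2 ^ (J - j) ≤ U.card ∧
        ∀ i, Le (lk i A) ((1 - kap * rho ^ J) * l') := by
  have hkR : kap ≤ R * kap := le_mul_of_one_le_left hk0.le hR0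
  intro n
  induction n with
  | zero =>
    intro U hUn j l f hD hE hl
    exfalso
    have h1 : U = ∅ := Finset.card_eq_zero.1 (Nat.le_zero.1 hUn)
    have h2 := hE.nrm
    rw [h1] at h2
    unfold N at h2
    rw [Finset.sum_empty] at h2
    exact zero_ne_one h2
  | succ n ih =>
    intro U hUn j l f hD hE hl
    by_cases hall : ∀ i, Le (lk i U) ((1 - kap * rho ^ j) * l)
    · refine ⟨U, l, f, j, le_rfl, Finset.Subset.refl U, hD, hE, ?_, ?_, hall⟩
      · rw [sub_self, mul_zero, sub_zero, one_mul]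
      · rw [Nat.sub_self, pow_zero, mul_one]
    · rw [not_forall] at hall
      obtain ⟨i, hi⟩ := hall
      have hne : (lk i U).Nonempty := by
        by_contra h
        exact hi (Pool.Agent.helper9.HQ.DSC_empty h _)
      have hcard := Pool.Agent.helper9.HQ.DSC_card U i
      have hpos : 0 < (lk i U).card := Finset.card_pos.2 hne
      have hDl := Pool.Agent.helper9.HQ.DSC_dn hD i
      obtain ⟨l2, f2, hl20, hE2⟩ := hEV d (lk i U) hDl hne
      have hp0 : (0 : ℝ) < rho ^ j := pow_pos hr0 j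
      have hp1 : rho ^ j ≤ 1 := pow_le_one₀ hr0.le hr1.le
      have ha0 : 0 ≤ kap * rho ^ j := by positivity
      have ha1 : kap * rho ^ j ≤ 1 / 2 := by nlinarith
      have hl2 : (1 - kap * rho ^ j) * l < l2 := by
        by_contra h
        rw [not_lt] at h
        apply hi
        intro g
        exact (hE2.le g).trans (mul_le_mul_of_nonneg_right h (Pool.Agent.helper9.HQ.DSC_N _ _))
      have hl2' : 0 < l2 := lt_of_le_of_lt (by
        apply mul_nonneg _ hl.le
        linarith) hl2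
      obtain ⟨A, l', f', J, hJ, hAU, hDA, hEA, hll, hcA, hLe⟩ :=
        ih (lk i U) (by omega) (j + 1) l2 f2 hDl hE2 hl2'
      refine ⟨A, l', f', J, by omega, fun x hx => (Finset.mem_filter.1 (hAU hx)).1, hDA, hEA, ?_, ?_, hLe⟩
      · have hrJ0 : (0 : ℝ) < rho ^ J := pow_pos hr0 J
        have hrJ : rho ^ J ≤ rho ^ (j + 1) :=
          pow_le_pow_of_le_one hr0.le hr1.le hJ
        have hrs : rho ^ (j + 1) = rho * rho ^ j := pow_succ' _ _
        have hs1 : rho ^ (j + 1) ≤ 1 := pow_le_one₀ hr0.le hr1.le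
        have hRk : 0 ≤ R * kap := mul_nonneg (by linarith) hk0.le
        have hb0 : 0 ≤ R * kap * (rho ^ (j + 1) - rho ^ J) := by
          apply mul_nonneg hRk
          linarith
        have hb1 : R * kap * (rho ^ (j + 1) - rho ^ J) ≤ 1 / 2 := by
          have h2 : R * kap * (rho ^ (j + 1) - rho ^ J) ≤ R * kap * 1 :=
            mul_le_mul_of_nonneg_left (by linarith) hRk
          linarith
        have h3 : (1 - R * kap * (rho ^ (j + 1) - rho ^ J)) *
            ((1 - kap * rho ^ j) * l) ≤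
            (1 - R * kap * (rho ^ (j + 1) - rho ^ J)) * l2 :=
          mul_le_mul_of_nonneg_left hl2.le (by linarith)
        have h4 : (1 - R * kap * (rho ^ j - rho ^ J)) * l ≤
            (1 - R * kap * (rho ^ (j + 1) - rho ^ J)) *
            ((1 - kap * rho ^ j) * l) := by
          rw [← mul_assoc]
          apply mul_le_mul_of_nonneg_right _ hl.le
          have h5 : 0 ≤ (R * kap * (rho ^ (j + 1) - rho ^ J)) *
              (kap * rho ^ j) := mul_nonneg hb0 ha0
          have h6 : R * kap * rho ^ j - R * kap * (rho * rho ^ j) = kap * rho ^ j := by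
            have : R * kap * rho ^ j - R * kap * (rho * rho ^ j) = R * (1 - rho) * (kap * rho ^ j) := by ring
            rw [this, hR, one_mul]
          have h7 : (1 - R * kap * (rho ^ (j + 1) - rho ^ J)) * (1 - kap * rho ^ j) =
              1 - R * kap * rho ^ (j + 1) + R * kap * rho ^ J - kap * rho ^ j +
                (R * kap * (rho ^ (j + 1) - rho ^ J)) * (kap * rho ^ j) := by ring
          have h8 : 1 - R * kap * (rho ^ j - rho ^ J) =
              1 - R * kap * rho ^ j + R * kap * rho ^ J := by ring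
          rw [h7, h8]
          rw [hrs] at h5 ⊢
          linarith
        exact h4.trans (h3.trans hll)
      · have h1 : J - j = (J - (j + 1)) + 1 := by omega
        rw [h1, pow_succ, ← mul_assoc]
        omega

theorem DSK (hEV : Pool.Agent.helper9.HQ.EV_stmt) : DSK_stmt := by
  intro d k U l f kap hD hE hl hk0 hk1
  have hk : (0 : ℝ) ≤ (k : ℝ) := Nat.cast_nonneg k
  have hR1 : (1 : ℝ) ≤ 4 * ((k : ℝ) + 1) := by linarith
  have hRp : (0 : ℝ) < 4 * ((k : ℝ) + 1) := by linarith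
  have hinv : 1 / (4 * ((k : ℝ) + 1)) ≤ 1 / 4 := by
    apply one_div_le_one_div_of_le (by norm_num)
    linarith
  have hinv0 : 0 < 1 / (4 * ((k : ℝ) + 1)) := one_div_pos.2 hRp
  have hr0 : (0 : ℝ) < 1 - 1 / (4 * ((k : ℝ) + 1)) := by linarith
  have hr1 : 1 - 1 / (4 * ((k : ℝ) + 1)) < 1 := by linarith
  have hRr : 4 * ((k : ℝ) + 1) * (1 - (1 - 1 / (4 * ((k : ℝ) + 1)))) = 1 := by
    rw [sub_sub_cancel, mul_one_div_cancel hRp.ne']
  obtain ⟨A, l', f', J, -, hAU, hDA, hEA, hll, hcA, hLe⟩ :=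
    DSK_main hEV d kap (1 - 1 / (4 * ((k : ℝ) + 1))) (4 * ((k : ℝ) + 1)) hk0 hr0 hr1 hR1 hRr
      (by linarith) U.card U le_rfl 0 l f hD hE hl
  set rho : ℝ := 1 - 1 / (4 * ((k : ℝ) + 1)) with hrho
  have hJ0 : 0 < rho ^ J := pow_pos hr0 J
  have hJ1 : rho ^ J ≤ 1 := pow_le_one₀ hr0.le hr1.le
  refine ⟨A, l', f', kap * rho ^ J, hAU, hDA, hEA, ?_, mul_pos hk0 hJ0, ?_, ?_, hLe⟩
  · refine le_trans ?_ hll
    apply mul_le_mul_of_nonneg_right _ hl.le
    rw [pow_zero]
    have h1 : 0 ≤ 4 * ((k : ℝ) + 1) * kap := mul_nonneg hRp.le hk0.le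
    nlinarith [mul_nonneg h1 hJ0.le]
  · exact mul_le_of_le_one_right hk0.le hJ1
  · rw [Nat.sub_zero] at hcA
    have hc : (A.card : ℝ) * 2 ^ J ≤ U.card := by exact_mod_cast hcA
    have hbern : (1 / 2 : ℝ) ≤ rho ^ (2 * (k + 1)) := by
      have h1 := one_add_mul_le_pow (a := -(1 / (4 * ((k : ℝ) + 1)))) (by linarith) (2 * (k + 1))
      have h2 : 1 + ((2 * (k + 1) : ℕ) : ℝ) * -(1 / (4 * ((k : ℝ) + 1))) = 1 / 2 := by
        push_cast
        field_simp
        ring
      rw [h2] at h1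
      have h3 : 1 + -(1 / (4 * ((k : ℝ) + 1))) = rho := by rw [hrho]; ring
      rwa [h3] at h1
    have hpw : (1 / 2 : ℝ) ^ J ≤ (rho ^ J) ^ (2 * (k + 1)) := by
      rw [← pow_mul, mul_comm J, pow_mul]
      exact pow_le_pow_left₀ (by norm_num) hbern J
    have h2J : (0 : ℝ) < 2 ^ J := by positivity
    have hA : (A.card : ℝ) ≤ U.card * (1 / 2) ^ J := by
      rw [one_div, inv_pow, ← div_eq_mul_inv, le_div_iff₀ h2J]
      exact hc
    have hkp : 0 ≤ kap ^ (2 * (k + 1)) := by positivity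
    calc (A.card : ℝ) * kap ^ (2 * (k + 1)) ≤ (U.card * (1 / 2) ^ J) * kap ^ (2 * (k + 1)) :=
          mul_le_mul_of_nonneg_right hA hkp
      _ ≤ (U.card * (rho ^ J) ^ (2 * (k + 1))) * kap ^ (2 * (k + 1)) :=
          mul_le_mul_of_nonneg_right (mul_le_mul_of_nonneg_left hpw (Nat.cast_nonneg _)) hkp
      _ = U.card * (kap * rho ^ J) ^ (2 * (k + 1)) := by rw [mul_pow]; ring

end

end Pool.Agent.PLR
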